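import Mathlib

set_option autoImplicit false
set_option maxHeartbeats 4000000

namespace Pool.Agent.W2helper71.LT

open Real

/-- parametrization: `n = κ³ o⁴`, `m = κ² o⁷` -/
lemma core (n m : ℕ) (hn : 1 ≤ n) (hm : 1 ≤ m) (h : (m:ℝ) ≤ (n:ℝ) ^ (7/4 : ℝ)) :
    ∃ κ o : ℝ, 1 ≤ κ ∧ 0 < o ∧ (n:ℝ) = κ ^ 3 * o ^ 4 ∧ (m:ℝ) = κ ^ 2 * o ^ 7 ∧
      max (((n:ℝ) ^ (7/4 : ℝ) / m) ^ (8/13 : ℝ)) (((n:ℝ) / m) ^ 2) =
        max (κ ^ 2) ((κ / o ^ 3) ^ 2) := by
  have hn0 : (0:ℝ) < n := by exact_mod_cast hn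
  have hm0 : (0:ℝ) < m := by exact_mod_cast hm
  set x : ℝ := (n:ℝ) ^ (1/13 : ℝ) with hx
  set y : ℝ := (m:ℝ) ^ (1/13 : ℝ) with hy
  have hx0 : 0 < x := rpow_pos_of_pos hn0 _
  have hy0 : 0 < y := rpow_pos_of_pos hm0 _
  have hxp : ∀ j : ℕ, x ^ j = (n:ℝ) ^ ((j:ℝ)/13) := by
    intro j
    rw [hx, ← rpow_natCast, ← rpow_mul hn0.le]
    congr 1; ring
  have hyp : ∀ j : ℕ, y ^ j = (m:ℝ) ^ ((j:ℝ)/13) := by
    intro j
    rw [hy, ← rpow_natCast, ← rpow_mul hm0.le]
    congr 1; ring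
  have hxn : (n:ℝ) = x ^ 13 := by rw [hxp 13]; norm_num
  have hym : (m:ℝ) = y ^ 13 := by rw [hyp 13]; norm_num
  refine ⟨x ^ 7 / y ^ 4, y ^ 3 / x ^ 2, ?_, by positivity, ?_, ?_, ?_⟩
  · rw [le_div_iff₀ (by positivity), one_mul]
    have h1 : (m:ℝ) ^ (4/13 : ℝ) ≤ ((n:ℝ) ^ (7/4 : ℝ)) ^ (4/13 : ℝ) :=
      rpow_le_rpow hm0.le h (by norm_num)
    rw [← rpow_mul hn0.le] at h1
    have e0 : (7/4 * (4/13) : ℝ) = 7/13 := by norm_num
    rw [e0] at h1
    have e1 := hxp 7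
    have e2 := hyp 4
    push_cast at e1 e2
    rw [e1, e2]
    exact h1
  · rw [hxn]; field_simp
  · rw [hym]; field_simp
  · congr 1
    · rw [div_rpow (by positivity) hm0.le, ← rpow_mul hn0.le, div_pow, ← pow_mul, ← pow_mul,
        hxp, hyp]
      norm_num
    · rw [hxn, hym]; field_simp

lemma rp_le {a s o : ℝ} (ha : 0 ≤ a) (hs : 0 ≤ s) (ho : 0 ≤ o) (h : a ≤ s * o ^ 4) :
    a ^ (7/4 : ℝ) ≤ s ^ (7/4 : ℝ) * o ^ 7 := by
  have h1 : a ^ (7/4 : ℝ) ≤ (s * o ^ 4) ^ (7/4 : ℝ) := rpow_le_rpow ha h (by norm_num)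
  rw [mul_rpow hs (by positivity)] at h1
  have h2 : (o ^ 4) ^ (7/4 : ℝ) = o ^ 7 := by
    rw [← rpow_natCast, ← rpow_mul ho, ← rpow_natCast]; norm_num
  rwa [h2] at h1

lemma le_rp {a s o : ℝ} (hs : 0 ≤ s) (ho : 0 ≤ o) (h : s * o ^ 4 ≤ a) :
    s ^ (7/4 : ℝ) * o ^ 7 ≤ a ^ (7/4 : ℝ) := by
  have h1 : (s * o ^ 4) ^ (7/4 : ℝ) ≤ a ^ (7/4 : ℝ) :=
    rpow_le_rpow (by positivity) h (by norm_num)
  rw [mul_rpow hs (by positivity)] at h1
  have h2 : (o ^ 4) ^ (7/4 : ℝ) = o ^ 7 := by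
    rw [← rpow_natCast, ← rpow_mul ho, ← rpow_natCast]; norm_num
  rwa [h2] at h1

lemma floor_half {x : ℝ} (hx : 1 ≤ x) : x / 2 ≤ (⌊x⌋₊ : ℝ) := by
  have h1 : x < (⌊x⌋₊ : ℝ) + 1 := Nat.lt_floor_add_one x
  have h2 : (1:ℝ) ≤ (⌊x⌋₊ : ℝ) := by
    have : 1 ≤ ⌊x⌋₊ := Nat.le_floor (by simpa using hx)
    exact_mod_cast this
  linarith

theorem optl_core (C1 C2 : ℝ) (hC1 : 0 < C1) (hC2 : 0 < C2) : ∃ C : ℝ, 0 < C ∧
    ∀ n m : ℕ, 1 ≤ n → 1 ≤ m → (m:ℝ) ≤ (n:ℝ) ^ (7/4 : ℝ) →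
    (∃ a t : ℕ, (1 ≤ a ∧ 5 ≤ t ∧ 16 * (t * a) + 3 * a + 1 ≤ n) ∧
      C1 * (t * (a:ℝ) ^ (7/4 : ℝ)) ≤ m ∧
      C2 * (t + ((n:ℝ) / (t * a)) ^ 2) ≤
        C * max (((n:ℝ) ^ (7/4 : ℝ) / m) ^ (8/13 : ℝ)) (((n:ℝ) / m) ^ 2)) ∨
    2 * ((n:ℝ) + 1) ^ 2 ≤
      C * max (((n:ℝ) ^ (7/4 : ℝ) / m) ^ (8/13 : ℝ)) (((n:ℝ) / m) ^ 2) := by
  set E : ℝ := 102 + 6 * C1 with hE
  have hE1 : 1 ≤ E := by linarith
  have hE0 : 0 < E := by linarith
  set D : ℝ := C1 + 17 * E ^ 3 with hD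
  have hD0 : 0 < D := by positivity
  have hD1 : 1 ≤ D := by
    have : 1 ≤ E ^ 3 := one_le_pow₀ hE1
    linarith
  refine ⟨C2 * (6 + E ^ 2) + C2 * (E ^ 7 + 4 * D ^ 2) + 200 * D ^ 2, by positivity, ?_⟩
  intro n m hn hm h
  have hn1 : (1:ℝ) ≤ n := by exact_mod_cast hn
  have hm1 : (1:ℝ) ≤ m := by exact_mod_cast hm
  obtain ⟨κ, o, hκ, ho, en, em, eP⟩ := core n m hn hm h
  rw [eP]
  have hκ0 : 0 < κ := by linarith
  have hnm : (n:ℝ) / m = κ / o ^ 3 := by rw [en, em]; field_simp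
  set P : ℝ := max (κ ^ 2) ((κ / o ^ 3) ^ 2) with hP
  have hP1 : κ ^ 2 ≤ P := le_max_left _ _
  have hP2 : (κ / o ^ 3) ^ 2 ≤ P := le_max_right _ _
  have hP0 : 0 ≤ P := le_trans (by positivity) hP1
  by_cases hc : E ≤ o ^ 4
  · left
    have hx1 : 1 ≤ o ^ 4 / E := by rwa [le_div_iff₀ hE0, one_mul]
    set a : ℕ := ⌊o ^ 4 / E⌋₊ with ha
    set t : ℕ := ⌈5 * κ ^ 2⌉₊ with ht
    have ha1 : 1 ≤ a := Nat.le_floor (by simpa using hx1)
    have ha2 : (a:ℝ) ≤ o ^ 4 / E := Nat.floor_le (by positivity)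
    have ha3 : o ^ 4 / E / 2 ≤ a := floor_half hx1
    have hκ2 : 1 ≤ κ ^ 2 := one_le_pow₀ hκ
    have ht1 : 5 * κ ^ 2 ≤ t := Nat.le_ceil _
    have ht2 : (t:ℝ) < 5 * κ ^ 2 + 1 := Nat.ceil_lt_add_one (by positivity)
    have ht3 : (t:ℝ) ≤ 6 * κ ^ 2 := by linarith
    have ht5 : 5 ≤ t := by
      have : (5:ℝ) ≤ t := by linarith
      exact_mod_cast this
    have ha1' : (1:ℝ) ≤ a := by exact_mod_cast ha1
    have hta : (t:ℝ) * a ≤ 6 * κ ^ 2 * (o ^ 4 / E) :=
      mul_le_mul ht3 ha2 (by positivity) (by positivity)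
    have hκ3 : κ ^ 2 ≤ κ ^ 3 := pow_le_pow_right₀ hκ (by norm_num)
    refine ⟨a, t, ⟨ha1, ht5, ?_⟩, ?_, ?_⟩
    · have e1 : (16 * ((t:ℝ) * a) + 3 * a + 1) ≤ n := by
        have e2 : 4 * (a:ℝ) ≤ t * a := by
          have : (4:ℝ) ≤ t := by linarith
          nlinarith
        have e3 : 17 * (6 * κ ^ 2 * (o ^ 4 / E)) ≤ κ ^ 3 * o ^ 4 := by
          have e4 : 102 / E ≤ 1 := by rw [div_le_one hE0]; linarith
          calc 17 * (6 * κ ^ 2 * (o ^ 4 / E)) = (102 / E) * (κ ^ 2 * o ^ 4) := by ring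
            _ ≤ 1 * (κ ^ 3 * o ^ 4) := by
              apply mul_le_mul e4 _ (by positivity) (by norm_num)
              exact mul_le_mul_of_nonneg_right hκ3 (by positivity)
            _ = _ := one_mul _
        rw [en]; linarith
      exact_mod_cast e1
    · have e1 : (a:ℝ) ≤ (1 / E) * o ^ 4 := by rw [one_div_mul_eq_div]; exact ha2
      have e2 := rp_le (by positivity) (by positivity) ho.le e1
      have e3 : (1 / E) ^ (7/4 : ℝ) ≤ 1 / E := by
        have : (1/E : ℝ) ^ (7/4 : ℝ) ≤ (1/E) ^ (1:ℝ) :=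
          rpow_le_rpow_of_exponent_ge (by positivity) (by rw [div_le_one hE0]; exact hE1)
            (by norm_num)
        rwa [rpow_one] at this
      have e4 : (a:ℝ) ^ (7/4 : ℝ) ≤ 1 / E * o ^ 7 :=
        e2.trans (mul_le_mul_of_nonneg_right e3 (by positivity))
      have e5 : 6 * C1 / E ≤ 1 := by rw [div_le_one hE0]; linarith
      calc C1 * (t * (a:ℝ) ^ (7/4 : ℝ)) ≤ C1 * (6 * κ ^ 2 * (1 / E * o ^ 7)) := by
            apply mul_le_mul_of_nonneg_left _ hC1.le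
            exact mul_le_mul ht3 e4 (by positivity) (by positivity)
        _ = (6 * C1 / E) * (κ ^ 2 * o ^ 7) := by ring
        _ ≤ 1 * (κ ^ 2 * o ^ 7) := mul_le_mul_of_nonneg_right e5 (by positivity)
        _ = m := by rw [one_mul, em]
    · have e1 : (n:ℝ) / (t * a) ≤ E * κ := by
        rw [div_le_iff₀ (by positivity), en]
        have e2 : 5 * κ ^ 2 * (o ^ 4 / E / 2) ≤ t * a :=
          mul_le_mul ht1 ha3 (by positivity) (by positivity)
        calc κ ^ 3 * o ^ 4 ≤ (5/2) * (κ ^ 3 * o ^ 4) := by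
              have : 0 ≤ κ ^ 3 * o ^ 4 := by positivity
              linarith
          _ = E * κ * (5 * κ ^ 2 * (o ^ 4 / E / 2)) := by field_simp
          _ ≤ _ := mul_le_mul_of_nonneg_left e2 (by positivity)
      have e3 : ((n:ℝ) / (t * a)) ^ 2 ≤ (E * κ) ^ 2 := pow_le_pow_left₀ (by positivity) e1 2
      calc C2 * (t + ((n:ℝ) / (t * a)) ^ 2) ≤ C2 * (6 * κ ^ 2 + (E * κ) ^ 2) :=
            mul_le_mul_of_nonneg_left (by linarith) hC2.le
        _ = C2 * (6 + E ^ 2) * κ ^ 2 := by ring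
        _ ≤ C2 * (6 + E ^ 2) * P := mul_le_mul_of_nonneg_left hP1 (by positivity)
        _ ≤ _ := by
          apply mul_le_mul_of_nonneg_right _ hP0
          have : 0 ≤ C2 * (E ^ 7 + 4 * D ^ 2) + 200 * D ^ 2 := by positivity
          linarith
  · push Not at hc
    have hoE : o < E := by
      by_contra hcon
      push Not at hcon
      have h1 : 1 ≤ o := hE1.trans hcon
      have h2 : o ^ 1 ≤ o ^ 4 := pow_le_pow_right₀ h1 (by norm_num)
      rw [pow_one] at h2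
      linarith
    by_cases hm5 : 5 * D ≤ m
    · left
      have hmD : 1 ≤ (m:ℝ) / D := by rw [le_div_iff₀ hD0]; linarith
      set t : ℕ := ⌊(m:ℝ) / D⌋₊ with ht
      have ht1 : (t:ℝ) ≤ m / D := Nat.floor_le (by positivity)
      have ht2 : (m:ℝ) / D / 2 ≤ t := floor_half hmD
      have ht5 : 5 ≤ t := Nat.le_floor (by
        rw [le_div_iff₀ hD0]; push_cast; exact hm5)
      have ht5' : (5:ℝ) ≤ t := by exact_mod_cast ht5
      have ho3 : o ^ 3 ≤ E ^ 3 := pow_le_pow_left₀ ho.le hoE.le 3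
      have hmn : (m:ℝ) ≤ E ^ 3 * n := by
        rw [em, en]
        calc κ ^ 2 * o ^ 7 = o ^ 3 * (κ ^ 2 * o ^ 4) := by ring
          _ ≤ E ^ 3 * (κ ^ 3 * o ^ 4) := by
            apply mul_le_mul ho3 _ (by positivity) (by positivity)
            exact mul_le_mul_of_nonneg_right (pow_le_pow_right₀ hκ (by norm_num)) (by positivity)
      have htD : (t:ℝ) * D ≤ m := by rwa [le_div_iff₀ hD0] at ht1
      refine ⟨1, t, ⟨le_refl _, ht5, ?_⟩, ?_, ?_⟩
      · have e1 : (16 * ((t:ℝ) * 1) + 3 * 1 + 1) ≤ n := by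
          have e2 : 17 * (t:ℝ) ≤ n := by
            have e3 : (t:ℝ) * (17 * E ^ 3) ≤ m := by
              refine le_trans ?_ htD
              apply mul_le_mul_of_nonneg_left _ (by positivity)
              rw [hD]; linarith
            have e4 : E ^ 3 * (17 * t) ≤ E ^ 3 * n := by linarith
            exact le_of_mul_le_mul_left e4 (by positivity)
          linarith
        exact_mod_cast e1
      · rw [Nat.cast_one, one_rpow, mul_one]
        have e1 : (t:ℝ) * C1 ≤ t * D := mul_le_mul_of_nonneg_left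
          (by rw [hD]; have : 0 < E ^ 3 := by positivity
              linarith) (by positivity)
        linarith
      · rw [Nat.cast_one, mul_one]
        have e1 : (n:ℝ) / t ≤ 2 * D * (κ / o ^ 3) := by
          rw [← hnm, div_le_iff₀ (by linarith)]
          calc (n:ℝ) = 2 * D * (n / m) * (m / D / 2) := by field_simp
            _ ≤ _ := mul_le_mul_of_nonneg_left ht2 (by positivity)
        have e2 : ((n:ℝ) / t) ^ 2 ≤ (2 * D * (κ / o ^ 3)) ^ 2 :=
          pow_le_pow_left₀ (by positivity) e1 2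
        have e3 : (t:ℝ) ≤ E ^ 7 * κ ^ 2 := by
          have e4 : (t:ℝ) ≤ m := by
            have : (t:ℝ) * 1 ≤ t * D := mul_le_mul_of_nonneg_left hD1 (by positivity)
            linarith
          have e5 : o ^ 7 ≤ E ^ 7 := pow_le_pow_left₀ ho.le hoE.le 7
          calc (t:ℝ) ≤ κ ^ 2 * o ^ 7 := by rw [← em]; exact e4
            _ ≤ κ ^ 2 * E ^ 7 := mul_le_mul_of_nonneg_left e5 (by positivity)
            _ = _ := mul_comm _ _
        calc C2 * (t + ((n:ℝ) / t) ^ 2) ≤ C2 * (E ^ 7 * κ ^ 2 + (2 * D * (κ / o ^ 3)) ^ 2) :=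
              mul_le_mul_of_nonneg_left (by linarith) hC2.le
          _ = C2 * (E ^ 7 * κ ^ 2 + 4 * D ^ 2 * (κ / o ^ 3) ^ 2) := by ring
          _ ≤ C2 * (E ^ 7 * P + 4 * D ^ 2 * P) := by
            apply mul_le_mul_of_nonneg_left _ hC2.le
            apply add_le_add
            · exact mul_le_mul_of_nonneg_left hP1 (by positivity)
            · exact mul_le_mul_of_nonneg_left hP2 (by positivity)
          _ = C2 * (E ^ 7 + 4 * D ^ 2) * P := by ring
          _ ≤ _ := by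
            apply mul_le_mul_of_nonneg_right _ hP0
            have : 0 ≤ C2 * (6 + E ^ 2) + 200 * D ^ 2 := by positivity
            linarith
    · right
      push Not at hm5
      have e1 : (n:ℝ) ≤ 5 * D * (κ / o ^ 3) := by
        rw [← hnm]
        calc (n:ℝ) = m * (n / m) := by field_simp
          _ ≤ _ := mul_le_mul_of_nonneg_right hm5.le (by positivity)
      have e2 : (n:ℝ) + 1 ≤ 2 * (5 * D * (κ / o ^ 3)) := by linarith
      calc 2 * ((n:ℝ) + 1) ^ 2 ≤ 2 * (2 * (5 * D * (κ / o ^ 3))) ^ 2 := by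
            apply mul_le_mul_of_nonneg_left _ (by norm_num)
            exact pow_le_pow_left₀ (by positivity) e2 2
        _ = 200 * D ^ 2 * (κ / o ^ 3) ^ 2 := by ring
        _ ≤ 200 * D ^ 2 * P := mul_le_mul_of_nonneg_left hP2 (by positivity)
        _ ≤ _ := by
          apply mul_le_mul_of_nonneg_right _ hP0
          have : 0 ≤ C2 * (6 + E ^ 2) + C2 * (E ^ 7 + 4 * D ^ 2) := by positivity
          linarith

lemma half_pow_le (N : ℕ) : (1/2 : ℝ) ^ N ≤ exp (-((N:ℝ) / 2)) := by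
  have h1 : (1/2 : ℝ) ≤ exp (-(1/2)) := by
    rw [exp_neg, one_div]
    apply inv_anti₀ (exp_pos _)
    have h2 : exp (1/2) ^ 2 < 4 := by
      rw [← exp_nat_mul]
      have e : ((2:ℕ):ℝ) * (1/2) = 1 := by norm_num
      rw [e]
      linarith [exp_one_lt_d9]
    have h3 : 0 < exp (1/2 : ℝ) := exp_pos _
    nlinarith
  calc (1/2 : ℝ) ^ N ≤ (exp (-(1/2))) ^ N := pow_le_pow_left₀ (by norm_num) h1 N
    _ = exp (-((N:ℝ) / 2)) := by rw [← exp_nat_mul]; congr 1; ring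

lemma pow_six_le {κ : ℝ} (_hκ : 0 ≤ κ) : κ ^ 6 ≤ 3072 * exp (κ ^ 2 / 8) := by
  have h1 : (κ ^ 2 / 8) ^ 3 / (Nat.factorial 3 : ℝ) ≤ exp (κ ^ 2 / 8) :=
    pow_div_factorial_le_exp _ (by positivity) 3
  have h2 : (Nat.factorial 3 : ℝ) = 6 := by norm_num [Nat.factorial]
  rw [h2] at h1
  have h3 : (κ ^ 2 / 8) ^ 3 / 6 = κ ^ 6 / 3072 := by ring
  rw [h3, div_le_iff₀ (by norm_num)] at h1
  linarith

theorem optu_core (Γ : ℕ) (c' : ℝ) (hΓ : 1 ≤ Γ) (hc' : 0 < c') : ∃ c C : ℝ, 0 < c ∧ 0 < C ∧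
  ∀ n m : ℕ, 1 ≤ n → 1 ≤ m → (m:ℝ) ≤ (n:ℝ) ^ (7/4 : ℝ) → ∀ P : ℝ,
  P = max (((n:ℝ) ^ (7/4 : ℝ) / m) ^ (8/13 : ℝ)) (((n:ℝ) / m) ^ 2) →
  1 ≤ C * Real.exp (-(c * P)) ∨
  (∃ D L K : ℕ, 0 < L ∧ 8 * m < 2 * D ∧ 3 * D ≤ L ∧ K * (L + 1) ≤ n + 1 ∧
    (1/2 : ℝ) ^ (K * K) ≤ C * Real.exp (-(c * P))) ∨
  (∃ a k D L K : ℕ, 5 ≤ a ∧ 1 ≤ k ∧ 3 * (Γ * a) ≤ n ∧
    784 * (m:ℝ) < (k + 1) * (c' * (a:ℝ) ^ (7/4 : ℝ)) ∧ (k + 1) * (Γ * a) ≤ 2 * D ∧ 0 < D ∧
    0 < L ∧ 3 * D ≤ L ∧ K * (L + 1) ≤ n + 1 ∧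
    (1/2 : ℝ) ^ (K * K) + ((n:ℝ) / (Γ * a) + 1) ^ 2 * (1/2) ^ (k + 1) ≤
      C * Real.exp (-(c * P))) := by
  have hΓ1 : (1:ℝ) ≤ Γ := by exact_mod_cast hΓ
  set B : ℝ := 1 + 1568 / c' with hB
  have hB1 : 1 ≤ B := by
    have : 0 < 1568 / c' := by positivity
    linarith
  have hB0 : 0 < B := by linarith
  have hcB : c' * B = c' + 1568 := by rw [hB]; field_simp
  set G : ℝ := Γ * B with hG
  have hG1 : 1 ≤ G := by
    calc (1:ℝ) = 1 * 1 := by norm_num
      _ ≤ Γ * B := mul_le_mul hΓ1 hB1 (by norm_num) (by linarith)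
  have hG0 : 0 < G := by linarith
  set c : ℝ := 1 / (24576 * (G ^ 2 * B ^ 2)) with hc
  have hc0 : 0 < c := by positivity
  have hGB : 1 ≤ G ^ 2 * B ^ 2 := by
    calc (1:ℝ) = 1 * 1 := by norm_num
      _ ≤ G ^ 2 * B ^ 2 := mul_le_mul (one_le_pow₀ hG1) (one_le_pow₀ hB1) (by norm_num)
        (by positivity)
  have hc1 : c ≤ 1 / 24576 := by
    rw [hc]
    apply one_div_le_one_div_of_le (by norm_num)
    linarith
  have hcGB : c * (G ^ 2 * B ^ 2) = 1 / 24576 := by rw [hc]; field_simp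
  refine ⟨c, 20000, hc0, by norm_num, ?_⟩
  intro n m hn hm h P hPe
  have hn1 : (1:ℝ) ≤ n := by exact_mod_cast hn
  have hm1 : (1:ℝ) ≤ m := by exact_mod_cast hm
  obtain ⟨κ, o, hκ, ho, en, em, eP⟩ := core n m hn hm h
  rw [eP] at hPe
  have hκ0 : 0 < κ := by linarith
  have hnm : (n:ℝ) / m = κ / o ^ 3 := by rw [en, em]; field_simp
  have first : c * P ≤ 1 → 1 ≤ 20000 * Real.exp (-(c * P)) := by
    intro h1
    have h2 : exp (-1) ≤ exp (-(c * P)) := exp_le_exp.2 (by linarith)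
    have h3 : (1/3 : ℝ) ≤ exp (-1) := by
      rw [exp_neg, one_div]
      exact inv_anti₀ (exp_pos _) (by linarith [exp_one_lt_d9])
    linarith
  by_cases hcs : 5 ≤ B * o ^ 4
  · -- case A
    have hPle : P ≤ B ^ 2 * κ ^ 2 := by
      rw [hPe]
      apply max_le
      · have : 1 ≤ B ^ 2 := one_le_pow₀ hB1
        have h2 : 0 ≤ κ ^ 2 := by positivity
        nlinarith
      · have h6 : 1 ≤ B ^ 2 * o ^ 6 := by
          by_cases ho1 : 1 ≤ o
          · calc (1:ℝ) = 1 * 1 := by norm_num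
              _ ≤ B ^ 2 * o ^ 6 := mul_le_mul (one_le_pow₀ hB1) (one_le_pow₀ ho1)
                (by norm_num) (by positivity)
          · push Not at ho1
            have h8 : o ^ 8 ≤ o ^ 6 := pow_le_pow_of_le_one ho.le ho1.le (by norm_num)
            have h9 : 1 ≤ (B * o ^ 4) ^ 2 := one_le_pow₀ (by linarith)
            calc (1:ℝ) ≤ (B * o ^ 4) ^ 2 := h9
              _ = B ^ 2 * o ^ 8 := by ring
              _ ≤ B ^ 2 * o ^ 6 := mul_le_mul_of_nonneg_left h8 (by positivity)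
        rw [div_pow, div_le_iff₀ (by positivity)]
        calc κ ^ 2 = κ ^ 2 * 1 := (mul_one _).symm
          _ ≤ κ ^ 2 * (B ^ 2 * o ^ 6) := mul_le_mul_of_nonneg_left h6 (by positivity)
          _ = B ^ 2 * κ ^ 2 * (o ^ 3) ^ 2 := by ring
    by_cases hκG : κ < 8 * G
    · left
      apply first
      have h1 : κ ^ 2 ≤ (8 * G) ^ 2 := pow_le_pow_left₀ hκ0.le hκG.le 2
      calc c * P ≤ c * (B ^ 2 * (8 * G) ^ 2) := by
            apply mul_le_mul_of_nonneg_left _ hc0.le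
            exact hPle.trans (mul_le_mul_of_nonneg_left h1 (by positivity))
        _ = 64 * (c * (G ^ 2 * B ^ 2)) := by ring
        _ ≤ 1 := by rw [hcGB]; norm_num
    · push Not at hκG
      right; right
      set a : ℕ := ⌈B * o ^ 4⌉₊ with ha
      have ha1 : B * o ^ 4 ≤ a := Nat.le_ceil _
      have ha2 : (a:ℝ) < B * o ^ 4 + 1 := Nat.ceil_lt_add_one (by positivity)
      have ha3 : (a:ℝ) ≤ 2 * (B * o ^ 4) := by linarith
      have ha5 : 5 ≤ a := by
        have : (5:ℝ) ≤ a := hcs.trans ha1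
        exact_mod_cast this
      have ha5' : (5:ℝ) ≤ a := by exact_mod_cast ha5
      have hκ8 : 8 ≤ κ := by linarith
      have hκ2 : 2 ≤ κ ^ 2 := by nlinarith
      obtain ⟨k, hk⟩ : ∃ k : ℕ, ⌊κ ^ 2⌋₊ = k + 1 := by
        have : 1 ≤ ⌊κ ^ 2⌋₊ := Nat.le_floor (by push_cast; linarith)
        exact ⟨⌊κ ^ 2⌋₊ - 1, by omega⟩
      have hk1 : 1 ≤ k := by
        have : 2 ≤ ⌊κ ^ 2⌋₊ := Nat.le_floor (by push_cast; linarith)
        omega
      have hk2 : ((k:ℝ) + 1) ≤ κ ^ 2 := by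
        have : ((⌊κ ^ 2⌋₊ : ℕ) : ℝ) ≤ κ ^ 2 := Nat.floor_le (by positivity)
        rw [hk] at this
        push_cast at this
        exact this
      have hk3 : κ ^ 2 / 2 ≤ (k:ℝ) + 1 := by
        have := floor_half (x := κ ^ 2) (by linarith)
        rw [hk] at this
        push_cast at this
        exact this
      have hκG8 : 1 ≤ κ / (8 * G) := by rwa [le_div_iff₀ (by positivity), one_mul]
      set K : ℕ := ⌊κ / (8 * G)⌋₊ with hK
      have hK1 : (K:ℝ) ≤ κ / (8 * G) := Nat.floor_le (by positivity)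
      have hK2 : κ / (8 * G) / 2 ≤ K := floor_half hκG8
      have hκ13 : κ ≤ κ ^ 3 := by
        calc κ = κ ^ 1 := (pow_one _).symm
          _ ≤ κ ^ 3 := pow_le_pow_right₀ hκ (by norm_num)
      have hDpos : 0 < (k + 1) * (Γ * a) := by positivity
      have hΓa : (Γ:ℝ) * a ≤ 2 * G * o ^ 4 := by
        calc (Γ:ℝ) * a ≤ Γ * (2 * (B * o ^ 4)) :=
              mul_le_mul_of_nonneg_left ha3 (by positivity)
          _ = 2 * G * o ^ 4 := by rw [hG]; ring
      refine ⟨a, k, (k + 1) * (Γ * a), 3 * ((k + 1) * (Γ * a)), K, ha5, hk1, ?_, ?_, ?_, hDpos,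
        by positivity, le_refl _, ?_, ?_⟩
      · have : (3:ℝ) * (Γ * a) ≤ n := by
          rw [en]
          calc (3:ℝ) * (Γ * a) ≤ 3 * (2 * G * o ^ 4) := mul_le_mul_of_nonneg_left hΓa (by norm_num)
            _ = (6 * G) * o ^ 4 := by ring
            _ ≤ κ ^ 3 * o ^ 4 := mul_le_mul_of_nonneg_right (by linarith) (by positivity)
        exact_mod_cast this
      · have e1 := le_rp (a := (a:ℝ)) (s := B) hB0.le ho.le ha1
        have e2 : B ≤ B ^ (7/4 : ℝ) := by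
          have : B ^ (1:ℝ) ≤ B ^ (7/4 : ℝ) := rpow_le_rpow_of_exponent_le hB1 (by norm_num)
          rwa [rpow_one] at this
        have e3 : B * o ^ 7 ≤ (a:ℝ) ^ (7/4 : ℝ) :=
          (mul_le_mul_of_nonneg_right e2 (by positivity)).trans e1
        calc 784 * (m:ℝ) < (c' * B / 2) * m := by
              apply mul_lt_mul_of_pos_right _ (by linarith)
              rw [hcB]; linarith
          _ = (κ ^ 2 / 2) * (c' * (B * o ^ 7)) := by rw [em]; ring
          _ ≤ (k + 1) * (c' * (a:ℝ) ^ (7/4 : ℝ)) := by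
            apply mul_le_mul hk3 _ (by positivity) (by positivity)
            exact mul_le_mul_of_nonneg_left e3 hc'.le
      · omega
      · have e1 : (K:ℝ) * (3 * ((k + 1) * (Γ * a)) + 1) ≤ n := by
          have e2 : (1:ℝ) ≤ (k + 1) * (Γ * a) := by exact_mod_cast hDpos
          have e3 : ((k:ℝ) + 1) * (Γ * a) ≤ κ ^ 2 * (2 * G * o ^ 4) :=
            mul_le_mul hk2 hΓa (by positivity) (by positivity)
          calc (K:ℝ) * (3 * ((k + 1) * (Γ * a)) + 1)
              ≤ κ / (8 * G) * (4 * (κ ^ 2 * (2 * G * o ^ 4))) := by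
                apply mul_le_mul hK1 _ (by positivity) (by positivity)
                linarith
            _ = κ ^ 3 * o ^ 4 := by field_simp; ring
            _ = n := en.symm
        have e4 : K * (3 * ((k + 1) * (Γ * a)) + 1) ≤ n := by exact_mod_cast e1
        omega
      · have hcP : c * P ≤ κ ^ 2 / (24576 * G ^ 2) := by
          calc c * P ≤ c * (B ^ 2 * κ ^ 2) := mul_le_mul_of_nonneg_left hPle hc0.le
            _ = κ ^ 2 / (24576 * G ^ 2) := by rw [hc]; field_simp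
        have hcP2 : c * P ≤ κ ^ 2 / 8 := by
          refine hcP.trans ?_
          apply div_le_div_of_nonneg_left (by positivity) (by norm_num)
          have : 1 ≤ G ^ 2 := one_le_pow₀ hG1
          linarith
        have p1 : (1/2 : ℝ) ^ (K * K) ≤ exp (-(c * P)) := by
          refine (half_pow_le _).trans (exp_le_exp.2 ?_)
          push_cast
          have e1 : (κ / (8 * G) / 2) * (κ / (8 * G) / 2) ≤ (K:ℝ) * K :=
            mul_le_mul hK2 hK2 (by positivity) (by positivity)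
          have e2 : (κ / (8 * G) / 2) * (κ / (8 * G) / 2) = κ ^ 2 / (256 * G ^ 2) := by
            field_simp; ring
          rw [e2] at e1
          have e3 : κ ^ 2 / (24576 * G ^ 2) ≤ κ ^ 2 / (256 * G ^ 2) / 2 := by
            rw [div_div]
            apply div_le_div_of_nonneg_left (by positivity) (by positivity)
            have : 0 < G ^ 2 := by positivity
            linarith
          linarith
        have p2 : ((n:ℝ) / (Γ * a) + 1) ^ 2 * (1/2) ^ (k + 1) ≤ 12288 * exp (-(c * P)) := by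
          have e1 : (n:ℝ) / (Γ * a) ≤ κ ^ 3 := by
            rw [div_le_iff₀ (by positivity), en]
            apply mul_le_mul_of_nonneg_left _ (by positivity)
            calc o ^ 4 = 1 * (1 * o ^ 4) := by ring
              _ ≤ Γ * (B * o ^ 4) := by
                apply mul_le_mul hΓ1 _ (by positivity) (by positivity)
                exact mul_le_mul_of_nonneg_right hB1 (by positivity)
              _ ≤ Γ * a := mul_le_mul_of_nonneg_left ha1 (by positivity)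
          have e2 : (n:ℝ) / (Γ * a) + 1 ≤ 2 * κ ^ 3 := by
            have : 1 ≤ κ ^ 3 := one_le_pow₀ hκ
            linarith
          have e3 : ((n:ℝ) / (Γ * a) + 1) ^ 2 ≤ 4 * κ ^ 6 := by
            calc ((n:ℝ) / (Γ * a) + 1) ^ 2 ≤ (2 * κ ^ 3) ^ 2 :=
                  pow_le_pow_left₀ (by positivity) e2 2
              _ = 4 * κ ^ 6 := by ring
          have e4 : (1/2 : ℝ) ^ (k + 1) ≤ exp (-(κ ^ 2 / 4)) := by
            refine (half_pow_le _).trans (exp_le_exp.2 ?_)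
            push_cast
            linarith
          calc ((n:ℝ) / (Γ * a) + 1) ^ 2 * (1/2) ^ (k + 1)
              ≤ (4 * (3072 * exp (κ ^ 2 / 8))) * exp (-(κ ^ 2 / 4)) := by
                apply mul_le_mul _ e4 (by positivity) (by positivity)
                refine e3.trans ?_
                exact mul_le_mul_of_nonneg_left (pow_six_le hκ0.le) (by norm_num)
            _ = 12288 * exp (-(κ ^ 2 / 8)) := by
              have e5 : exp (-(κ ^ 2 / 8)) = exp (κ ^ 2 / 8) * exp (-(κ ^ 2 / 4)) := by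
                rw [← exp_add]; congr 1; ring
              rw [e5]; ring
            _ ≤ 12288 * exp (-(c * P)) := by
              apply mul_le_mul_of_nonneg_left _ (by norm_num)
              exact exp_le_exp.2 (by linarith)
        have p3 : 0 < exp (-(c * P)) := exp_pos _
        linarith
  · -- case B
    push Not at hcs
    have ho4 : o ^ 4 < 5 := by
      have : 1 * o ^ 4 ≤ B * o ^ 4 := mul_le_mul_of_nonneg_right hB1 (by positivity)
      linarith
    have ho32 : o ≤ 3 / 2 := by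
      by_contra hcon
      push Not at hcon
      have : (3/2 : ℝ) ^ 4 ≤ o ^ 4 := pow_le_pow_left₀ (by norm_num) hcon.le 4
      norm_num at this
      linarith
    set r : ℝ := κ / o ^ 3 with hr
    have hr0 : 0 < r := by positivity
    have hPle : P ≤ 12 * r ^ 2 := by
      rw [hPe]
      apply max_le
      · have e1 : κ = r * o ^ 3 := by rw [hr]; field_simp
        have e2 : o ^ 6 ≤ 12 := by
          have : o ^ 6 ≤ (3/2 : ℝ) ^ 6 := pow_le_pow_left₀ ho.le ho32 6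
          norm_num at this
          linarith
        calc κ ^ 2 = (r * o ^ 3) ^ 2 := by rw [← e1]
          _ = o ^ 6 * r ^ 2 := by ring
          _ ≤ 12 * r ^ 2 := mul_le_mul_of_nonneg_right e2 (by positivity)
      · have : 0 ≤ r ^ 2 := by positivity
        linarith
    by_cases hr16 : r < 16
    · left
      apply first
      have e1 : r ^ 2 ≤ 16 ^ 2 := pow_le_pow_left₀ hr0.le hr16.le 2
      calc c * P ≤ c * 3072 := mul_le_mul_of_nonneg_left (by linarith) hc0.le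
        _ ≤ 1 / 24576 * 3072 := mul_le_mul_of_nonneg_right hc1 (by norm_num)
        _ ≤ 1 := by norm_num
    · push Not at hr16
      right; left
      have hr1 : 1 ≤ r / 16 := by linarith
      set K : ℕ := ⌊r / 16⌋₊ with hK
      have hK1 : (K:ℝ) ≤ r / 16 := Nat.floor_le (by positivity)
      have hK2 : r / 16 / 2 ≤ K := floor_half hr1
      refine ⟨4 * m + 1, 3 * (4 * m + 1), K, by omega, by omega, le_refl _, ?_, ?_⟩
      · have e1 : (K:ℝ) * (3 * (4 * m + 1) + 1) ≤ n := by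
          calc (K:ℝ) * (3 * (4 * m + 1) + 1) ≤ (r / 16) * (16 * m) := by
                apply mul_le_mul hK1 _ (by positivity) (by positivity)
                linarith
            _ = r * m := by ring
            _ = n := by rw [← hnm]; field_simp
        have e4 : K * (3 * (4 * m + 1) + 1) ≤ n := by exact_mod_cast e1
        omega
      · have p1 : (1/2 : ℝ) ^ (K * K) ≤ exp (-(c * P)) := by
          refine (half_pow_le _).trans (exp_le_exp.2 ?_)
          push_cast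
          have e1 : (r / 16 / 2) * (r / 16 / 2) ≤ (K:ℝ) * K :=
            mul_le_mul hK2 hK2 (by positivity) (by positivity)
          have e2 : c * P ≤ 1 / 24576 * (12 * r ^ 2) := by
            apply mul_le_mul hc1 hPle _ (by norm_num)
            rw [hPe]
            exact le_trans (by positivity) (le_max_left _ _)
          have e3 : 1 / 24576 * (12 * r ^ 2) = (r / 16 / 2) * (r / 16 / 2) / 2 := by ring
          linarith
        have p3 : 0 < exp (-(c * P)) := exp_pos _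
        linarith

end Pool.Agent.W2helper71.LT
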