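import Pool.Agent.W2helper78.LT.Stm
import Pool.Agent.W2helper71.LT.OptCore

set_option autoImplicit false

namespace Pool.Agent.W2helper71.LT

/-- Piece OPTL -/
theorem optl : W78LT.St_OPTL := by
  intro C1 C2 h1 h2
  obtain ⟨C, hC, H⟩ := optl_core C1 C2 h1 h2
  refine ⟨C, hC, fun n m hn hm h => ?_⟩
  rcases H n m hn hm h with ⟨a, t, ⟨ha, ht, hnn⟩, h3, h4⟩ | h5
  · exact Or.inl ⟨a, t, ⟨ha, ht, hnn⟩, h3, h4⟩
  · exact Or.inr h5

end Pool.Agent.W2helper71.LT
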