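import Pool.Agent.W2helper78.LT.Stm
import Pool.Agent.W2helper71.LT.OptCore

set_option autoImplicit false

namespace Pool.Agent.W2helper71.LT

/-- Piece OPTU -/
theorem optu : W78LT.St_OPTU := by
  intro Γ c' h1 h2
  obtain ⟨c, C, hc, hC, H⟩ := optu_core Γ c' h1 h2
  exact ⟨c, C, hc, hC, fun n m hn hm h => H n m hn hm h _ rfl⟩

end Pool.Agent.W2helper71.LT
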